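import Mathlib.GroupTheory.SemidirectProduct
import Mathlib.Tactic.NormNum.Prime
import Mathlib.Tactic.IntervalCases
import Mathlib.GroupTheory.Solvable
import Mathlib.GroupTheory.SpecificGroups.Dihedral

/-!
# The equation `x x^{-a} x^{a^2} = c` over the Frobenius group of order 42

The equation has a solution in a solvable group containing `G = ⟨c⟩₇ ⋊ ⟨a⟩₆`: one may take the
wreath product of the dihedral group of order `14` with the cyclic group of order `3`, a solvable
group of order `8232 = 14 ^ 3 * 3`.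

How the solution was found: modulo the normal closure of `c`, the group generated by `a` and `x` is
a quotient of `Heis(ℤ) ⋊ C₆`, and the equation becomes a linear equation `D v = c` over the group
ring of that quotient; for the quotient `C₂ × A₄`, acting on `𝔽₇³` by signed cyclic
permutation matrices, the linear equation is solvable.
-/

set_option autoImplicit false

namespace Pool.Agent.Results.MP_a21721_al.SolvableSolution

/-- The dihedral group of order `14`. -/
abbrev D := DihedralGroup 7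

/-- The cyclic shift of the coordinates of triples. -/
def sh : Multiplicative (ZMod 3) →* MulAut (ZMod 3 → D) where
  toFun k :=
    { toFun := fun f i => f (i + k.toAdd)
      invFun := fun f i => f (i - k.toAdd)
      left_inv := fun f => by funext i; simp
      right_inv := fun f => by funext i; simp
      map_mul' := fun f g => rfl }
  map_one' := by ext f i; simp
  map_mul' k l := by ext f i; simp [add_assoc]

/-- The wreath product of the dihedral group of order `14` with the cyclic group of order `3`. -/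
abbrev H0 := (ZMod 3 → D) ⋊[sh] Multiplicative (ZMod 3)

instance : DecidableEq H0 := fun x y => decidable_of_iff (x.left = y.left ∧ x.right = y.right) (by
  constructor
  · rintro ⟨h1, h2⟩; exact SemidirectProduct.ext h1 h2
  · rintro rfl; exact ⟨rfl, rfl⟩)

/-- The element of `H0` that plays the role of `a`. -/
def a0 : H0 := ⟨![.r 0, .r 0, .sr 0], Multiplicative.ofAdd 1⟩
/-- The element of `H0` that plays the role of `c`. -/
def c0 : H0 := ⟨![.r 1, .r 3, .r 2], 1⟩
/-- The solution of the equation. -/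
def h0 : H0 := ⟨![.r 5, .sr 3, .sr 6], 1⟩

theorem rel_ac : a0⁻¹ * c0 * a0 = c0 ^ 5 := by decide
theorem rel_h : h0 * (a0⁻¹ * h0⁻¹ * a0) * (a0⁻¹ * a0⁻¹ * h0 * (a0 * a0)) = c0 := by decide
theorem a0_pow : a0 ^ 6 = 1 := by decide
theorem c0_pow : c0 ^ 7 = 1 := by decide
theorem a0_pow3 : a0 ^ 3 ≠ 1 := by decide
theorem a0_pow2 : a0 ^ 2 ≠ 1 := by decide
theorem c0_ne : c0 ≠ 1 := by decide

theorem orderOf_c0 : orderOf c0 = 7 :=
  haveI : Fact (Nat.Prime 7) := ⟨by norm_num⟩
  orderOf_eq_prime c0_pow c0_ne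

theorem orderOf_a0 : orderOf a0 = 6 := by
  apply orderOf_eq_of_pow_and_pow_div_prime (by norm_num) a0_pow
  intro p hp hdvd
  have h6 : p ≤ 6 := Nat.le_of_dvd (by norm_num) hdvd
  interval_cases p
  · exact absurd hp (by norm_num)
  · exact absurd hp (by norm_num)
  · exact a0_pow3
  · exact a0_pow2
  · exact absurd hp (by norm_num)
  · exact absurd hdvd (by norm_num)
  · exact absurd hp (by norm_num)

instance solvD : Group.IsSolvable D := by
  let f : Multiplicative (ZMod 7) →* D :=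
    { toFun := fun x => .r x.toAdd
      map_one' := rfl
      map_mul' := fun x y => by simp }
  let g : D →* Multiplicative (ZMod 2) :=
    { toFun := fun x => match x with
        | .r _ => 1
        | .sr _ => Multiplicative.ofAdd 1
      map_one' := rfl
      map_mul' := fun x y => by
        cases x <;> cases y
        · rfl
        · rfl
        · rfl
        · change (1 : Multiplicative (ZMod 2)) = Multiplicative.ofAdd 1 * Multiplicative.ofAdd 1
          decide }
  apply Group.isSolvable_of_ker_le_range f g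
  intro x hx
  cases x with
  | r i => exact ⟨Multiplicative.ofAdd i, rfl⟩
  | sr i =>
    exfalso
    rw [MonoidHom.mem_ker] at hx
    revert hx
    change Multiplicative.ofAdd (1 : ZMod 2) = 1 → False
    decide

instance solvN : Group.IsSolvable (ZMod 3 → D) := by
  let f : (ZMod 3 → D) →* D × D × D :=
    { toFun := fun x => (x 0, x 1, x 2)
      map_one' := rfl
      map_mul' := fun x y => rfl }
  apply Group.isSolvable_of_isSolvable_injective (f := f)
  intro x y hxy
  have h0 : x 0 = y 0 := congrArg Prod.fst hxy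
  have h1 : x 1 = y 1 := congrArg (fun z => z.2.1) hxy
  have h2 : x 2 = y 2 := congrArg (fun z => z.2.2) hxy
  funext i
  fin_cases i
  · exact h0
  · exact h1
  · exact h2

instance solvH0 : Group.IsSolvable H0 := by
  apply Group.isSolvable_of_ker_le_range (SemidirectProduct.inl (φ := sh)) SemidirectProduct.rightHom
  rw [SemidirectProduct.range_inl_eq_ker_rightHom]

instance finH0 : Finite H0 := by
  apply Finite.of_injective (fun x : H0 => (x.left, x.right))
  intro x y h
  exact SemidirectProduct.ext (congrArg Prod.fst h) (congrArg Prod.snd h)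

theorem card_H0 : Nat.card H0 = 14 ^ 3 * 3 := by
  rw [SemidirectProduct.card]
  rw [Nat.card_fun, Nat.card_zmod, DihedralGroup.nat_card]
  change (2 * 7) ^ 3 * Nat.card (ZMod 3) = _
  rw [Nat.card_zmod]

variable {G : Type*} [Group G]

section aux

variable {K : Type*} [Group K] (a c : K)

theorem key1 (h : a⁻¹ * c * a = c ^ 5) (j : ℕ) : c ^ j * a = a * c ^ (5 * j) := by
  have h1 : a⁻¹ * c ^ j * a = c ^ (5 * j) := by
    rw [pow_mul, ← h]
    have := conj_pow (a := a⁻¹) (b := c) (i := j)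
    rw [inv_inv] at this
    exact this.symm
  rw [← h1]; group

theorem key2 (h : a⁻¹ * c * a = c ^ 5) (i : ℕ) : ∀ j : ℕ, c ^ j * a ^ i = a ^ i * c ^ (5 ^ i * j) := by
  induction i with
  | zero => intro j; simp
  | succ i ih =>
    intro j
    rw [pow_succ, ← mul_assoc, ih, mul_assoc, key1 a c h, ← mul_assoc]
    congr 2
    ring

theorem key_mul (h : a⁻¹ * c * a = c ^ 5) (i j k l : ℕ) :
    a ^ i * c ^ j * (a ^ k * c ^ l) = a ^ (i + k) * c ^ (5 ^ k * j + l) := by
  rw [mul_assoc, ← mul_assoc (c ^ j), key2 a c h, pow_add, pow_add]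
  simp only [mul_assoc]

theorem key_inv (h : a⁻¹ * c * a = c ^ 5) (h6 : a ^ 6 = 1) (h7 : c ^ 7 = 1) (i j : ℕ) :
    (a ^ i * c ^ j)⁻¹ = a ^ (5 * i) * c ^ (5 ^ (5 * i) * (6 * j)) := by
  rw [← key2 a c h, mul_inv_rev]
  have e2 : (c ^ j)⁻¹ = c ^ (6 * j) := by
    rw [inv_eq_iff_mul_eq_one, ← pow_add]
    have : j + 6 * j = 7 * j := by ring
    rw [this, pow_mul, h7, one_pow]
  have e3 : (a ^ i)⁻¹ = a ^ (5 * i) := by
    rw [inv_eq_iff_mul_eq_one, ← pow_add]
    have : i + 5 * i = 6 * i := by ring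
    rw [this, pow_mul, h6, one_pow]
  rw [e2, e3]

theorem key_triv (h6 : orderOf a = 6) (h7 : orderOf c = 7) (i j : ℕ) (h : a ^ i * c ^ j = 1) :
    6 ∣ i ∧ 7 ∣ j := by
  have h1 : a ^ i = (c ^ j)⁻¹ := eq_inv_of_mul_eq_one_left h
  have h2 : (a ^ i) ^ 7 = 1 := by
    rw [h1, inv_pow, ← pow_mul, mul_comm, pow_mul, ← h7, pow_orderOf_eq_one, one_pow, inv_one]
  rw [← pow_mul] at h2
  have h3 : 6 ∣ i * 7 := h6 ▸ orderOf_dvd_of_pow_eq_one h2
  have h4 : 6 ∣ i := (Nat.Coprime.dvd_of_dvd_mul_right (by decide) h3)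
  have h5 : a ^ i = 1 := orderOf_dvd_iff_pow_eq_one.mp (h6 ▸ h4)
  rw [h5, one_mul] at h
  exact ⟨h4, h7 ▸ orderOf_dvd_of_pow_eq_one h⟩

end aux

/-- The set of the elements `(a ^ i * c ^ j, a0 ^ i * c0 ^ j)` of `G × H0`. -/
theorem closure_form (a c : G) (hac : a⁻¹ * c * a = c ^ 5) (ha : a ^ 6 = 1) (hc : c ^ 7 = 1)
    (z : G × H0) (hz : z ∈ Subgroup.closure {((a, a0) : G × H0), (c, c0)}) :
    ∃ i j : ℕ, z = (a ^ i * c ^ j, a0 ^ i * c0 ^ j) := by
  induction hz using Subgroup.closure_induction with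
  | mem x hx =>
    rcases hx with rfl | hx
    · exact ⟨1, 0, by simp⟩
    · rw [Set.mem_singleton_iff] at hx
      subst hx
      exact ⟨0, 1, by simp⟩
  | one => exact ⟨0, 0, by simp only [pow_zero, mul_one]; rfl⟩
  | mul x y _ _ ihx ihy =>
    obtain ⟨i, j, rfl⟩ := ihx
    obtain ⟨k, l, rfl⟩ := ihy
    refine ⟨i + k, 5 ^ k * j + l, ?_⟩
    exact Prod.ext (key_mul a c hac i j k l) (key_mul a0 c0 rel_ac i j k l)
  | inv x _ ih =>
    obtain ⟨i, j, rfl⟩ := ih
    refine ⟨5 * i, 5 ^ (5 * i) * (6 * j), ?_⟩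
    exact Prod.ext (key_inv a c hac ha hc i j) (key_inv a0 c0 rel_ac a0_pow c0_pow i j)

/-- A group generated by `a` and `c` as in the problem embeds in `H0`, with `a ↦ a0`,
`c ↦ c0`. -/
theorem exists_embedding (a c : G) (ha : orderOf a = 6) (hc : orderOf c = 7)
    (hac : a⁻¹ * c * a = c ^ 5) (hgen : Subgroup.closure {a, c} = ⊤) :
    ∃ φ : G →* H0, Function.Injective φ ∧ φ a = a0 ∧ φ c = c0 := by
  have ha6 : a ^ 6 = 1 := ha ▸ pow_orderOf_eq_one a
  have hc7 : c ^ 7 = 1 := hc ▸ pow_orderOf_eq_one c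
  let K : Subgroup (G × H0) := Subgroup.closure {((a, a0) : G × H0), (c, c0)}
  have haK : ((a, a0) : G × H0) ∈ K := Subgroup.subset_closure (by simp)
  have hcK : ((c, c0) : G × H0) ∈ K := Subgroup.subset_closure (by simp)
  let p1 : K →* G := (MonoidHom.fst G H0).comp K.subtype
  let p2 : K →* H0 := (MonoidHom.snd G H0).comp K.subtype
  have inj1 : Function.Injective p1 := by
    rw [injective_iff_map_eq_one]
    rintro ⟨z, hz⟩ h
    obtain ⟨i, j, rfl⟩ := closure_form a c hac ha6 hc7 z hz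
    have h' : a ^ i * c ^ j = 1 := h
    obtain ⟨⟨i', rfl⟩, ⟨j', rfl⟩⟩ := key_triv a c ha hc i j h'
    apply Subtype.ext
    ext1
    · exact h'
    · change a0 ^ (6 * i') * c0 ^ (7 * j') = 1
      rw [pow_mul, pow_mul, a0_pow, c0_pow, one_pow, one_pow, one_mul]
  have inj2 : Function.Injective p2 := by
    rw [injective_iff_map_eq_one]
    rintro ⟨z, hz⟩ h
    obtain ⟨i, j, rfl⟩ := closure_form a c hac ha6 hc7 z hz
    have h' : a0 ^ i * c0 ^ j = 1 := h
    obtain ⟨⟨i', rfl⟩, ⟨j', rfl⟩⟩ := key_triv a0 c0 orderOf_a0 orderOf_c0 i j h'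
    apply Subtype.ext
    ext1
    · change a ^ (6 * i') * c ^ (7 * j') = 1
      rw [pow_mul, pow_mul, ha6, hc7, one_pow, one_pow, one_mul]
    · exact h'
  have sur1 : Function.Surjective p1 := by
    rw [← MonoidHom.range_eq_top, eq_top_iff, ← hgen, Subgroup.closure_le]
    rintro x (rfl | hx)
    · exact ⟨⟨_, haK⟩, rfl⟩
    · rw [Set.mem_singleton_iff] at hx
      subst hx
      exact ⟨⟨_, hcK⟩, rfl⟩
  let e : K ≃* G := MulEquiv.ofBijective p1 ⟨inj1, sur1⟩
  refine ⟨p2.comp e.symm.toMonoidHom, inj2.comp e.symm.injective, ?_, ?_⟩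
  · have h1 : e ⟨_, haK⟩ = a := rfl
    have h2 : e.symm a = ⟨_, haK⟩ := by rw [MulEquiv.symm_apply_eq, h1]
    change p2 (e.symm a) = a0
    rw [h2]; rfl
  · have h1 : e ⟨_, hcK⟩ = c := rfl
    have h2 : e.symm c = ⟨_, hcK⟩ := by rw [MulEquiv.symm_apply_eq, h1]
    change p2 (e.symm c) = c0
    rw [h2]; rfl

/-- Sanity check: groups as in `result` exist. -/
theorem exists_group : ∃ (G : Type) (_ : Group G) (a c : G), orderOf a = 6 ∧ orderOf c = 7 ∧
    a⁻¹ * c * a = c ^ 5 ∧ Subgroup.closure {a, c} = ⊤ := by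
  let K : Subgroup H0 := Subgroup.closure {a0, c0}
  have haK : a0 ∈ K := Subgroup.subset_closure (by simp)
  have hcK : c0 ∈ K := Subgroup.subset_closure (by simp)
  refine ⟨K, inferInstance, ⟨a0, haK⟩, ⟨c0, hcK⟩, ?_, ?_, ?_, ?_⟩
  · exact (Subgroup.orderOf_coe (⟨a0, haK⟩ : K)).symm.trans orderOf_a0
  · exact (Subgroup.orderOf_coe (⟨c0, hcK⟩ : K)).symm.trans orderOf_c0
  · exact Subtype.ext rel_ac
  · have h1 : ((Subtype.val : K → H0) ⁻¹' {a0, c0}) = {⟨a0, haK⟩, ⟨c0, hcK⟩} := by
      ext ⟨x, hx⟩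
      simp only [Set.mem_preimage, Set.mem_insert_iff, Set.mem_singleton_iff, Subtype.mk.injEq]
    rw [← h1]
    exact Subgroup.closure_closure_coe_preimage

/-- Let `G = ⟨c⟩₇ ⋊ ⟨a⟩₆` with `c ^ a = a⁻¹ c a = c ^ 5`, that is, let `G` be generated by `a` and
`c` of orders `6` and `7` with `a⁻¹ c a = c ^ 5`. There are a solvable group `H` (finite, of order
`14 ^ 3 * 3 = 8232`), an embedding `φ` of `G` in `H` and `h ∈ H` with `h h^{-a} h^{a²} = c`, where
`h^{-a} = a⁻¹ h⁻¹ a` and `h^{a²} = a⁻² h a²`. -/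
theorem result (G : Type*) [Group G] (a c : G) (ha : orderOf a = 6) (hc : orderOf c = 7)
    (hac : a⁻¹ * c * a = c ^ 5) (hgen : Subgroup.closure {a, c} = ⊤) :
    ∃ (H : Type) (_ : Group H) (φ : G →* H) (h : H),
      Group.IsSolvable H ∧ Nat.card H = 14 ^ 3 * 3 ∧ Function.Injective φ ∧
        h * ((φ a)⁻¹ * h⁻¹ * φ a) * ((φ a)⁻¹ * (φ a)⁻¹ * h * (φ a * φ a)) = φ c := by
  obtain ⟨φ, hφ, h1, h2⟩ := exists_embedding a c ha hc hac hgen
  exact ⟨H0, inferInstance, φ, h0, solvH0, card_H0, hφ, by rw [h1, h2]; exact rel_h⟩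

end Pool.Agent.Results.MP_a21721_al.SolvableSolution
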